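import Pool.Agent.H63.Trap.F1

namespace Pool.Agent.H99.Trap

open MeasureTheory ProbabilityTheory Filter
open scoped ENNReal NNReal Topology

namespace F

/-- `n`-step transition probability of the simple random walk on `ℤ`. -/
noncomputable def bn : ℕ → ℤ → ℝ
  | 0, k => if k = 0 then 1 else 0
  | n+1, k => (bn n (k-1) + bn n (k+1)) / 2

theorem bn_nonneg (n : ℕ) (k : ℤ) : 0 ≤ bn n k := by
  induction n generalizing k with
  | zero => unfold bn; split_ifs <;> norm_num
  | succ n ih =>
    unfold bn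
    have := ih (k-1)
    have := ih (k+1)
    positivity

theorem bn_le_one (n : ℕ) (k : ℤ) : bn n k ≤ 1 := by
  induction n generalizing k with
  | zero => unfold bn; split_ifs <;> norm_num
  | succ n ih =>
    unfold bn
    have := ih (k-1)
    have := ih (k+1)
    linarith

theorem abs_bn_le (n : ℕ) (k : ℤ) : |bn n k| ≤ 1 := by
  rw [abs_of_nonneg (bn_nonneg n k)]
  exact bn_le_one n k

/-- coefficient series -/
noncomputable def A (k : ℤ) : PowerSeries ℝ := PowerSeries.mk fun n => bn n k / (3 ^ n * n.factorial)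

theorem dA (k : ℤ) : PowerSeries.derivative ℝ (A k) =
    PowerSeries.C (1/6 : ℝ) * (A (k-1) + A (k+1)) := by
  ext n
  rw [PowerSeries.coeff_derivative, PowerSeries.coeff_C_mul, map_add]
  simp only [A, PowerSeries.coeff_mk]
  have h1 : bn (n+1) k = (bn n (k-1) + bn n (k+1)) / 2 := rfl
  rw [h1, Nat.factorial_succ, pow_succ]
  push_cast
  have : (n:ℝ) + 1 ≠ 0 := by positivity
  field_simp
  ring

theorem coeff_eq (n : ℕ) (z : Fin 3 → ℤ) :
    rwP 3 n z / n.factorial = PowerSeries.coeff n (A (z 0) * A (z 1) * A (z 2)) := by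
  induction n generalizing z with
  | zero =>
    rw [rwP_zero]
    simp only [PowerSeries.coeff_zero_eq_constantCoeff, map_mul]
    simp only [A, ← PowerSeries.coeff_zero_eq_constantCoeff_apply, PowerSeries.coeff_mk, bn]
    by_cases h : z = 0
    · simp [h]
    · have : z 0 ≠ 0 ∨ z 1 ≠ 0 ∨ z 2 ≠ 0 := by
        by_contra hc
        push Not at hc
        apply h
        funext i
        fin_cases i
        · exact hc.1
        · exact hc.2.1
        · exact hc.2.2
      rcases this with h0 | h0 | h0 <;> simp [h, h0]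
  | succ n ih =>
    have h1 : PowerSeries.coeff n (PowerSeries.derivative ℝ (A (z 0) * A (z 1) * A (z 2))) =
        PowerSeries.coeff (n+1) (A (z 0) * A (z 1) * A (z 2)) * (n+1) :=
      PowerSeries.coeff_derivative _ _
    have h2 : PowerSeries.derivative ℝ (A (z 0) * A (z 1) * A (z 2)) =
        PowerSeries.C (1/6 : ℝ) * ((A (z 0 - 1) * A (z 1) * A (z 2)) +
          (A (z 0 + 1) * A (z 1) * A (z 2)) + (A (z 0) * A (z 1 - 1) * A (z 2)) +
          (A (z 0) * A (z 1 + 1) * A (z 2)) + (A (z 0) * A (z 1) * A (z 2 - 1)) +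
          (A (z 0) * A (z 1) * A (z 2 + 1))) := by
      rw [Derivation.leibniz, Derivation.leibniz, dA, dA, dA]
      simp only [smul_eq_mul]
      ring
    have h3 : rwP 3 (n+1) z / (n+1).factorial * (n+1) =
        1/6 * (∑ e : Dir 3, rwP 3 n (z - stp e) / n.factorial) := by
      rw [rwP_succ, ← Finset.sum_div, Nat.factorial_succ]
      push_cast
      have : (n:ℝ) + 1 ≠ 0 := by positivity
      field_simp
      ring
    have h4 : (∑ e : Dir 3, rwP 3 n (z - stp e) / n.factorial) =
        PowerSeries.coeff n ((A (z 0 - 1) * A (z 1) * A (z 2)) +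
          (A (z 0 + 1) * A (z 1) * A (z 2)) + (A (z 0) * A (z 1 - 1) * A (z 2)) +
          (A (z 0) * A (z 1 + 1) * A (z 2)) + (A (z 0) * A (z 1) * A (z 2 - 1)) +
          (A (z 0) * A (z 1) * A (z 2 + 1))) := by
      simp only [ih, map_add, Fintype.sum_prod_type, Fin.sum_univ_three, Fintype.sum_bool]
      simp [stp]
      ring
    have h5 : PowerSeries.coeff (n+1) (A (z 0) * A (z 1) * A (z 2)) * (n+1) =
        rwP 3 (n+1) z / (n+1).factorial * (n+1) := by
      rw [← h1, h2, h3, h4, PowerSeries.coeff_C_mul]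
    have hn : ((n:ℝ) + 1) ≠ 0 := by positivity
    exact (mul_right_cancel₀ hn h5).symm

/-- absolute summability of the evaluation -/
def SN (l : ℝ) (φ : PowerSeries ℝ) : Prop := Summable fun n => ‖PowerSeries.coeff n φ * l ^ n‖

/-- evaluation -/
noncomputable def ev (l : ℝ) (φ : PowerSeries ℝ) : ℝ := ∑' n, PowerSeries.coeff n φ * l ^ n

theorem coeff_mul_pow (l : ℝ) (φ ψ : PowerSeries ℝ) (n : ℕ) :
    PowerSeries.coeff n (φ * ψ) * l ^ n = ∑ p ∈ Finset.HasAntidiagonal.antidiagonal n,
      (PowerSeries.coeff p.1 φ * l ^ p.1) * (PowerSeries.coeff p.2 ψ * l ^ p.2) := by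
  rw [PowerSeries.coeff_mul, Finset.sum_mul]
  refine Finset.sum_congr rfl fun p hp => ?_
  rw [← Finset.HasAntidiagonal.mem_antidiagonal.1 hp, pow_add]
  ring

theorem SN.mul {l : ℝ} {φ ψ : PowerSeries ℝ} (h1 : SN l φ) (h2 : SN l ψ) : SN l (φ * ψ) := by
  unfold SN
  simp_rw [coeff_mul_pow]
  exact summable_norm_sum_mul_antidiagonal_of_summable_norm
    (f := fun n => PowerSeries.coeff n φ * l ^ n) (g := fun n => PowerSeries.coeff n ψ * l ^ n) h1 h2

theorem ev_mul {l : ℝ} {φ ψ : PowerSeries ℝ} (h1 : SN l φ) (h2 : SN l ψ) :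
    ev l (φ * ψ) = ev l φ * ev l ψ := by
  unfold ev
  simp_rw [coeff_mul_pow]
  exact (tsum_mul_tsum_eq_tsum_sum_antidiagonal_of_summable_norm
    (f := fun n => PowerSeries.coeff n φ * l ^ n)
    (g := fun n => PowerSeries.coeff n ψ * l ^ n) h1 h2).symm

/-- one-dimensional heat kernel -/
noncomputable def Q (l : ℝ) (k : ℤ) : ℝ := ∑' n, po l n * bn n k

theorem term_eq (l : ℝ) (k : ℤ) (n : ℕ) : PowerSeries.coeff n (A k) * l ^ n =
    Real.exp (l/3) * (po (l/3) n * bn n k) := by
  simp only [A, PowerSeries.coeff_mk, po]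
  rw [div_pow]
  have h : Real.exp (l/3) * Real.exp (-(l/3)) = 1 := by
    rw [← Real.exp_add]; simp
  have h3 : (3:ℝ)^n ≠ 0 := by positivity
  have h4 : (n.factorial : ℝ) ≠ 0 := by positivity
  field_simp
  linear_combination (-(bn n k) * l^n) * h

theorem SN_A (l : ℝ) (k : ℤ) : SN l (A k) := by
  unfold SN
  simp_rw [term_eq, norm_mul]
  refine Summable.mul_left _ ?_
  have := (summable_po_mul (l/3) (fun n => abs_bn_le n k)).norm
  simpa only [norm_mul] using this

theorem ev_A (l : ℝ) (k : ℤ) : ev l (A k) = Real.exp (l/3) * Q (l/3) k := by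
  unfold ev Q
  simp_rw [term_eq]
  rw [tsum_mul_left]

/-- product formula -/
theorem hk_prod (l : ℝ) (z : Fin 3 → ℤ) :
    hk 3 l z = Q (l/3) (z 0) * Q (l/3) (z 1) * Q (l/3) (z 2) := by
  have h1 : hk 3 l z = Real.exp (-l) * ev l (A (z 0) * A (z 1) * A (z 2)) := by
    rw [hk_eq]
    unfold ev
    rw [← tsum_mul_left]
    refine tsum_congr fun n => ?_
    rw [← coeff_eq]
    unfold po
    ring
  rw [h1, ev_mul ((SN_A l _).mul (SN_A l _)) (SN_A l _), ev_mul (SN_A l _) (SN_A l _), ev_A, ev_A,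
    ev_A]
  have h : Real.exp (-l) * (Real.exp (l/3) * Real.exp (l/3) * Real.exp (l/3)) = 1 := by
    rw [← Real.exp_add, ← Real.exp_add, ← Real.exp_add]
    rw [Real.exp_eq_one_iff]
    ring
  linear_combination (Q (l/3) (z 0) * Q (l/3) (z 1) * Q (l/3) (z 2)) * h

/-! ### Bessel form -/

theorem bn_neg (n : ℕ) (k : ℤ) : bn n (-k) = bn n k := by
  induction n generalizing k with
  | zero => simp [bn]
  | succ n ih =>
    simp only [bn]
    rw [← ih (k-1), ← ih (k+1)]
    ring_nf

theorem bn_zero_of_lt (n : ℕ) (k : ℤ) (h : (n:ℤ) < |k|) : bn n k = 0 := by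
  induction n generalizing k with
  | zero =>
    have : k ≠ 0 := by
      rintro rfl
      simp at h
    simp [bn, this]
  | succ n ih =>
    simp only [bn]
    push_cast at h
    have h1 : |k| ≤ |k-1| + 1 := by
      have := abs_add_le (k-1) 1
      simpa using this
    have h2 : |k| ≤ |k+1| + 1 := by
      have := abs_sub (k+1) 1
      simpa using this
    rw [ih (k-1) (by linarith), ih (k+1) (by linarith)]
    simp

theorem bn_parity (n : ℕ) (k : ℤ) (h : bn n k ≠ 0) : Even ((n:ℤ) + k) := by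
  induction n generalizing k with
  | zero =>
    by_cases hk : k = 0
    · simp [hk]
    · simp [bn, hk] at h
  | succ n ih =>
    by_cases h1 : bn n (k-1) = 0
    · by_cases h2 : bn n (k+1) = 0
      · simp [bn, h1, h2] at h
      · have := ih (k+1) h2
        push_cast
        convert this using 1
        ring
    · have := ih (k-1) h1
      push_cast
      have h3 : (n:ℤ) + 1 + k = (n + (k-1)) + 2 := by ring
      rw [h3]
      exact this.add even_two

theorem bn_eq_choose (n j : ℕ) : bn n (2*j - n) = (n.choose j : ℝ) / 2 ^ n := by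
  induction n generalizing j with
  | zero =>
    rcases j with _ | j
    · simp [bn]
    · have : (2 * ((j+1 : ℕ):ℤ) - (0:ℕ)) ≠ 0 := by
        push_cast
        omega
      simp [bn]
      omega
  | succ n ih =>
    simp only [bn]
    rcases j with _ | j
    · have h1 : bn n (2 * ((0:ℕ):ℤ) - ((n+1 : ℕ):ℤ) - 1) = 0 := by
        apply bn_zero_of_lt
        rw [abs_of_neg] <;> push_cast <;> linarith
      have h2 : bn n (2 * ((0:ℕ):ℤ) - ((n+1 : ℕ):ℤ) + 1) = bn n (2 * ((0:ℕ):ℤ) - n) := by
        congr 1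
        push_cast
        ring
      rw [h1, h2, ih]
      simp [pow_succ]
      ring
    · have h1 : bn n (2 * ((j+1:ℕ):ℤ) - ((n+1 : ℕ):ℤ) - 1) = bn n (2 * (j:ℤ) - n) := by
        congr 1
        push_cast
        ring
      have h2 : bn n (2 * ((j+1:ℕ):ℤ) - ((n+1 : ℕ):ℤ) + 1) = bn n (2 * ((j+1:ℕ):ℤ) - n) := by
        congr 1
        push_cast
        ring
      rw [h1, h2, ih, ih, Nat.choose_succ_succ]
      push_cast
      rw [pow_succ]
      ring

end F

/-- one-dimensional heat kernel, Bessel form -/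
noncomputable def ff (l : ℝ) (k : ℕ) : ℝ :=
  ∑' j : ℕ, Real.exp (-l) * (l/2)^(2*j+k) / (j.factorial * (j+k).factorial)

namespace F

theorem Q_nat (l : ℝ) (m : ℕ) : Q l m = ff l m := by
  unfold Q ff
  have hinj : Function.Injective (fun j : ℕ => 2*j+m) := by
    intro a b h
    simp only at h
    omega
  rw [← hinj.tsum_eq]
  · refine tsum_congr fun j => ?_
    have h1 : bn (2*j+m) m = ((2*j+m).choose (j+m) : ℝ) / 2^(2*j+m) := by
      rw [← bn_eq_choose]
      congr 1
      push_cast
      ring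
    rw [h1]
    have h2 : ((2*j+m).choose (j+m) : ℝ) = (2*j+m).factorial / ((j+m).factorial * j.factorial) := by
      rw [Nat.cast_choose ℝ (by omega : j + m ≤ 2*j+m)]
      congr 3
      congr 1
      omega
    rw [h2]
    unfold po
    rw [div_pow]
    have h3 : ((2*j+m).factorial : ℝ) ≠ 0 := by positivity
    have h4 : ((j+m).factorial : ℝ) ≠ 0 := by positivity
    have h5 : (j.factorial : ℝ) ≠ 0 := by positivity
    have h6 : (2:ℝ)^(2*j+m) ≠ 0 := by positivity
    field_simp
  · intro n hn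
    have h1 : bn n m ≠ 0 := by
      intro h
      apply hn
      simp [h]
    have h2 : (m:ℤ) ≤ n := by
      by_contra hc
      push Not at hc
      exact h1 (bn_zero_of_lt n m (by rwa [Nat.abs_cast]))
    have h3 := bn_parity n m h1
    obtain ⟨r, hr⟩ := h3
    refine ⟨(n-m)/2, ?_⟩
    simp only
    omega

theorem Q_eq (l : ℝ) (k : ℤ) : Q l k = ff l k.natAbs := by
  rw [← Q_nat]
  rcases Int.natAbs_eq k with h | h
  · rw [← h]
  · have : Q l k = Q l (-(k.natAbs : ℤ)) := by rw [← h]
    rw [this]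
    unfold Q
    simp_rw [bn_neg]

end F

/-- product formula of the heat kernel -/
theorem hk_prod (l : ℝ) (z : Fin 3 → ℤ) :
    hk 3 l z = ff (l/3) (z 0).natAbs * ff (l/3) (z 1).natAbs * ff (l/3) (z 2).natAbs := by
  rw [F.hk_prod, F.Q_eq, F.Q_eq, F.Q_eq]

end Pool.Agent.H99.Trap
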