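import Pool.Agent.H99.Trap.Defs2

namespace Pool.Agent.H99.Trap

open MeasureTheory ProbabilityTheory Filter
open scoped ENNReal NNReal Topology

namespace F

/-! ### basic facts on `rwP` -/

theorem rwP_eq (d n : ℕ) (z : Fin d → ℤ) : rwP d n z =
    (∑ e : Fin n → Dir d, if ∑ i, stp (e i) = z then (1:ℝ) else 0) / (2 * d) ^ n := by
  unfold rwP
  rw [Fintype.card_subtype, Finset.card_filter]
  push_cast
  rfl

theorem rwP_nonneg (d n : ℕ) (z : Fin d → ℤ) : 0 ≤ rwP d n z := by
  unfold rwP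
  positivity

theorem rwP_le_one (d n : ℕ) (z : Fin d → ℤ) : rwP d n z ≤ 1 := by
  unfold rwP
  apply div_le_one_of_le₀ _ (by positivity)
  have h1 : Fintype.card {e : Fin n → Dir d // ∑ i, stp (e i) = z} ≤
      Fintype.card (Fin n → Dir d) := Fintype.card_subtype_le _
  have h2 : Fintype.card (Fin n → Dir d) = (2 * d) ^ n := by
    simp [Fintype.card_prod, mul_comm]
  rw [h2] at h1
  exact_mod_cast h1

theorem rwP_zero (d : ℕ) (z : Fin d → ℤ) : rwP d 0 z = if z = 0 then 1 else 0 := by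
  rw [rwP_eq]
  simp [eq_comm]

theorem rwP_succ (d n : ℕ) (z : Fin d → ℤ) :
    rwP d (n + 1) z = (∑ e : Dir d, rwP d n (z - stp e)) / (2 * d) := by
  simp_rw [rwP_eq]
  rw [← Finset.sum_div, div_div, ← pow_succ]
  congr 1
  rw [← (Fin.consEquiv (fun _ : Fin (n+1) => Dir d)).sum_comp, Fintype.sum_prod_type]
  refine Finset.sum_congr rfl fun e0 _ => Finset.sum_congr rfl fun e _ => ?_
  have : (∑ i : Fin (n+1), stp ((Fin.consEquiv (fun _ : Fin (n+1) => Dir d)) (e0, e) i)) =
      stp e0 + ∑ i, stp (e i) := by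
    rw [Fin.sum_univ_succ]
    simp [Fin.consEquiv]
  rw [this]
  congr 1
  rw [eq_sub_iff_add_eq, add_comm]

theorem rwP_neg (d n : ℕ) (z : Fin d → ℤ) : rwP d n (-z) = rwP d n z := by
  induction n generalizing z with
  | zero => simp [rwP_zero]
  | succ n ih =>
    rw [rwP_succ, rwP_succ]
    congr 1
    let φ : Dir d ≃ Dir d := Equiv.prodCongr (Equiv.refl _) Equiv.boolNot
    rw [← φ.sum_comp]
    refine Finset.sum_congr rfl fun e _ => ?_
    rw [← ih]
    congr 1
    have : stp (φ e) = - stp e := by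
      obtain ⟨i, b⟩ := e
      cases b <;> simp [stp, φ, Pi.single_neg]
    rw [this]
    abel

/-! ### Poisson weights -/

/-- Poisson weight -/
noncomputable def po (l : ℝ) (n : ℕ) : ℝ := Real.exp (-l) * l ^ n / n.factorial

theorem po_nonneg {l : ℝ} (hl : 0 ≤ l) (n : ℕ) : 0 ≤ po l n := by
  unfold po; positivity

theorem hasSum_po (l : ℝ) : HasSum (po l) 1 := by
  have h := (NormedSpace.expSeries_div_hasSum_exp (𝔸 := ℝ) l).mul_left (Real.exp (-l))
  rw [← Real.exp_eq_exp_ℝ, ← Real.exp_add] at h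
  simp only [neg_add_cancel, Real.exp_zero] at h
  refine h.congr_fun ?_ |> fun h => h
  intro n
  unfold po
  ring

theorem summable_abs_po (l : ℝ) : Summable (fun n => |po l n|) := by
  have h := (hasSum_po |l|).summable.mul_left (Real.exp (-l) / Real.exp (-|l|))
  refine h.congr fun n => ?_
  unfold po
  rw [abs_div, abs_mul, abs_pow, Real.abs_exp, Nat.abs_cast]
  field_simp

theorem summable_po_mul (l : ℝ) {f : ℕ → ℝ} (hf : ∀ n, |f n| ≤ 1) :
    Summable (fun n => po l n * f n) := by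
  refine Summable.of_norm_bounded (summable_abs_po l) fun n => ?_
  rw [Real.norm_eq_abs, abs_mul]
  exact mul_le_of_le_one_right (abs_nonneg _) (hf n)

theorem abs_rwP_le (d n : ℕ) (z : Fin d → ℤ) : |rwP d n z| ≤ 1 := by
  rw [abs_of_nonneg (rwP_nonneg d n z)]
  exact rwP_le_one d n z

theorem hk_eq (d : ℕ) (l : ℝ) (z : Fin d → ℤ) : hk d l z = ∑' n, po l n * rwP d n z := rfl

end F

open F

theorem hk_nonneg {d : ℕ} {l : ℝ} (hl : 0 ≤ l) (z : Fin d → ℤ) : 0 ≤ hk d l z := by
  rw [hk_eq]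
  exact tsum_nonneg fun n => mul_nonneg (po_nonneg hl n) (rwP_nonneg d n z)

theorem hk_le_one {d : ℕ} [NeZero d] {l : ℝ} (hl : 0 ≤ l) (z : Fin d → ℤ) : hk d l z ≤ 1 := by
  rw [hk_eq, ← (hasSum_po l).tsum_eq]
  refine (summable_po_mul l (fun n => abs_rwP_le d n z)).tsum_le_tsum (fun n => ?_)
    (hasSum_po l).summable
  exact mul_le_of_le_one_right (po_nonneg hl n) (rwP_le_one d n z)

theorem hk_neg {d : ℕ} (l : ℝ) (z : Fin d → ℤ) : hk d l (-z) = hk d l z := by
  simp_rw [hk_eq, rwP_neg]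

theorem measurable_hk (d : ℕ) : Measurable (fun p : ℝ × (Fin d → ℤ) => hk d p.1 p.2) := by
  have h : ∀ N : ℕ, Measurable (fun p : ℝ × (Fin d → ℤ) =>
      ∑ n ∈ Finset.range N, po p.1 n * rwP d n p.2) := by
    intro N
    refine Finset.measurable_sum _ fun n _ => ?_
    refine Measurable.mul ?_ ?_
    · unfold po
      fun_prop
    · exact (measurable_of_countable (fun z : Fin d → ℤ => rwP d n z)).comp measurable_snd
  refine measurable_of_tendsto_metrizable h ?_
  rw [tendsto_pi_nhds]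
  intro p
  exact (summable_po_mul p.1 (fun n => abs_rwP_le d n p.2)).hasSum.tendsto_sum_nat

end Pool.Agent.H99.Trap
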